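import Pool.Agent.W93.PP9

/-!
# The uniform Hardy-Littlewood asymptotic in windows around random integers of thin sets

Definition used: `Pool.Agent.H560R3.GB.C₂`, the twin prime constant `∏_{p > 2} (1 - 1 / (p - 1) ^ 2)`
(the infimum of the partial products).
-/

set_option autoImplicit false

namespace Pool.Agent.Results.MP_678834_nt.RandomDigitWindows

open Finset Pool.Agent.H560R3.GB

/-- `π₂(X, d)`: the number of primes `p ≤ X` for which `p - d` is a prime. -/
def pi2 (X d : ℕ) : ℕ := ((Icc 1 X).filter (fun p => p.Prime ∧ (p - d).Prime)).card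

/-- The singular series `𝔖(d)` of the problem for even `d`. -/
noncomputable def S (d : ℕ) : ℝ :=
  2 * C₂ * ∏ p ∈ d.primeFactors.filter (fun p => 2 < p), ((p : ℝ) - 1) / ((p : ℝ) - 2)

/-- The estimate of the problem, with a relative error `21 / log X`, for all even `d` with
`D ≤ d ≤ D + (log X) ^ A`. -/
def Holds (A X D : ℕ) : Prop :=
  ∀ d : ℕ, D ≤ d → (d : ℝ) ≤ D + Real.log X ^ A → Even d → 0 < d →
    |(pi2 X d : ℝ) * Real.log X ^ 2 / (S d * X) - 1| ≤ 21 / Real.log X

open Classical in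
/-- The probability of the event `E` if the digits `e 0, ..., e (k - 1)` are chosen independently
of each other from `{0, ..., H - 1}`, and `e j` is equal to `v` with probability `w j v`. -/
noncomputable def Prob (H k : ℕ) (w : ℕ → ℕ → ℝ) (E : (Fin k → ℕ) → Prop) : ℝ :=
  ∑ e ∈ Fintype.piFinset (fun _ : Fin k => range H), if E e then ∏ j : Fin k, w j (e j) else 0

/-- Let `b ≥ 2`, `H`, `B₀`, `A`, `U`, `W` and `η > 0` be fixed and let `k` be large. Let the digits
`e 0, ..., e (k - 1)` be independent random elements of `{0, ..., H - 1}` with arbitrary distributions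
(which may depend on the position and on `k`), none of which takes a value with a probability larger than
`1 - η`, let `c ≤ B₀ b ^ k`, and let `X` be a number with
`b ^ k (log X) ^ 10 ≤ X ≤ b ^ k (log X) ^ W`. Then, with a probability of at least `1 - 1 / k ^ U`, the
integer `D = c + ∑ e j b ^ j` has the following property: for all even `d > 0` with
`D ≤ d ≤ D + (log X) ^ A`, the ratio of `π₂(X, d)` to `𝔖(d) X / (log X) ^ 2` differs from `1` by at most
`21 / log X`. -/
theorem result (b H B₀ A U W : ℕ) (hb : 2 ≤ b) (η : ℝ) (hη : 0 < η) :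
    ∃ k₀ : ℕ, ∀ k : ℕ, k₀ ≤ k → ∀ w : ℕ → ℕ → ℝ,
      (∀ j < k, (∀ v, 0 ≤ w j v ∧ w j v ≤ 1 - η) ∧ ∑ v ∈ range H, w j v = 1) →
      ∀ X : ℕ, b ^ k ≤ X → (b : ℝ) ^ k * Real.log X ^ 10 ≤ X → (X : ℝ) ≤ (b : ℝ) ^ k * Real.log X ^ W →
      ∀ c : ℕ, c ≤ B₀ * b ^ k →
        Prob H k w (fun e => ¬ Holds A X (c + ∑ j, e j * b ^ (j : ℕ))) ≤ 1 / (k : ℝ) ^ U := by
  classical
  obtain ⟨k₀, h0⟩ := Pool.Agent.W93.PP.pp_final b H A 0 4 U W B₀ hb η hη
  obtain ⟨X1, hrel⟩ := Pool.Agent.W93.PP.rel_of_good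
  refine ⟨k₀ + X1, fun k hk w hw X hX0 hX1 hX2 c hc => ?_⟩
  have hkX : k < X := (Nat.lt_pow_self (by omega)).trans_le hX0
  have h1 := h0 k (by omega) w (fun j hj a => ((hw j hj).1 a).1) (fun j hj a => ((hw j hj).1 a).2) (fun j hj => (hw j hj).2)
    X hX0 hX1 hX2 c hc (fun e => ¬ Holds A X (c + ∑ j, e j * b ^ (j : ℕ))) (Classical.decPred _) (by
      intro e _ he hgood
      apply he
      intro d hd1 hd2 hdev hd0
      exact hrel X (by omega) A _ hgood d hd1 hd2 hdev.two_dvd hd0)
  refine le_trans (le_of_eq ?_) h1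
  unfold Prob Pool.Agent.W93.RD.Str Pool.Agent.W93.RD.pw
  apply sum_congr rfl
  intro d _
  split_ifs <;> rfl

end Pool.Agent.Results.MP_678834_nt.RandomDigitWindows
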